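import Mathlib

/-!
A checker for covers of the bidisc, and its soundness.

A certificate consists of Gaussian integers `u1`, `u2` (a direction), `μ = m1 + i m2` and an integer
`A` with `0 ≤ A < m1`. It is used for the points `(x1, x2)` with `|μ x1 - u1| ≤ A` and
`|μ x2 - u2| < m1 - A`.
-/

set_option autoImplicit false

namespace Pool.Agent.Zk84.HC

/-- a certificate -/
structure Ce where
  a1 : ℤ
  b1 : ℤ
  a2 : ℤ
  b2 : ℤ
  m1 : ℤ
  m2 : ℤ
  A : ℤ

/-- the test at an end point `(a + i b) / V` of an arc of the unit circle -/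
def ok1 (c : Ce) (a b V : ℤ) : Bool :=
  let n := a * (c.m1 * c.a1 + c.m2 * c.b1) - b * (c.m2 * c.a1 - c.m1 * c.b1)
  decide (0 ≤ n) &&
    decide (V * (c.m1 * c.m1 + c.m2 * c.m2 + c.a1 * c.a1 + c.b1 * c.b1 - c.A * c.A) ≤ 2 * n)

/-- the test at a corner of a box, in units `1 / S` -/
def corner (S : ℤ) (c : Ce) (X Y : ℤ) : Bool :=
  decide ((c.m1 * X - c.m2 * Y - S * c.a2) * (c.m1 * X - c.m2 * Y - S * c.a2) +
    (c.m1 * Y + c.m2 * X - S * c.b2) * (c.m1 * Y + c.m2 * X - S * c.b2) <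
    (S * (c.m1 - c.A)) * (S * (c.m1 - c.A)))

/-- the box with the corner `(X, Y)` and the side `s` is in the disc of the certificate -/
def inside (S : ℤ) (c : Ce) (X Y s : ℤ) : Bool :=
  corner S c X Y && (corner S c (X + s) Y && (corner S c X (Y + s) && corner S c (X + s) (Y + s)))

/-- the point of `[X, X + s]` next to `0` -/
def near (X s : ℤ) : ℤ := if 0 < X then X else if X + s < 0 then X + s else 0

/-- the box is outside the unit disc -/
def outside (S X Y s : ℤ) : Bool :=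
  decide (S * S < near X s * near X s + near Y s * near Y s)

/-- the part of the box in the unit disc is covered by the discs of the certificates -/
def cov (S : ℤ) (L : List Ce) : ℕ → ℤ → ℤ → Bool
  | 0, X, Y => outside S X Y 1 || L.any (fun c => inside S c X Y 1)
  | d + 1, X, Y =>
    let h : ℤ := ((2 ^ d : ℕ) : ℤ)
    outside S X Y (h + h) || (L.any (fun c => inside S c X Y (h + h)) ||
      (cov S L d X Y && (cov S L d (X + h) Y && (cov S L d X (Y + h) && cov S L d (X + h) (Y + h)))))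

theorem corner_iff {S : ℤ} {c : Ce} {X Y : ℤ} (h : corner S c X Y = true) :
    ((c.m1 : ℝ) * X - c.m2 * Y - S * c.a2) ^ 2 + ((c.m1 : ℝ) * Y + c.m2 * X - S * c.b2) ^ 2 <
      ((S : ℝ) * (c.m1 - c.A)) ^ 2 := by
  have h1 := of_decide_eq_true h
  have h2 : (((c.m1 * X - c.m2 * Y - S * c.a2) * (c.m1 * X - c.m2 * Y - S * c.a2) +
    (c.m1 * Y + c.m2 * X - S * c.b2) * (c.m1 * Y + c.m2 * X - S * c.b2) : ℤ) : ℝ) <
    (((S * (c.m1 - c.A)) * (S * (c.m1 - c.A)) : ℤ) : ℝ) := by exact_mod_cast h1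
  push_cast at h2
  nlinarith [h2]

/-- the square of the distance is at most its bilinear interpolation -/
theorem interp (m1 m2 u v X0 Y0 s a b lim : ℝ) (ha : 0 ≤ a) (ha' : a ≤ 1)
    (hb : 0 ≤ b) (hb' : b ≤ 1)
    (h00 : (m1 * X0 - m2 * Y0 - u) ^ 2 + (m1 * Y0 + m2 * X0 - v) ^ 2 < lim)
    (h10 : (m1 * (X0 + s) - m2 * Y0 - u) ^ 2 + (m1 * Y0 + m2 * (X0 + s) - v) ^ 2 < lim)
    (h01 : (m1 * X0 - m2 * (Y0 + s) - u) ^ 2 + (m1 * (Y0 + s) + m2 * X0 - v) ^ 2 < lim)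
    (h11 : (m1 * (X0 + s) - m2 * (Y0 + s) - u) ^ 2 + (m1 * (Y0 + s) + m2 * (X0 + s) - v) ^ 2 < lim) :
    (m1 * (X0 + a * s) - m2 * (Y0 + b * s) - u) ^ 2 +
      (m1 * (Y0 + b * s) + m2 * (X0 + a * s) - v) ^ 2 < lim := by
  have e : (m1 * (X0 + a * s) - m2 * (Y0 + b * s) - u) ^ 2 +
      (m1 * (Y0 + b * s) + m2 * (X0 + a * s) - v) ^ 2 =
      (1 - a) * (1 - b) * ((m1 * X0 - m2 * Y0 - u) ^ 2 + (m1 * Y0 + m2 * X0 - v) ^ 2) +
      a * (1 - b) * ((m1 * (X0 + s) - m2 * Y0 - u) ^ 2 + (m1 * Y0 + m2 * (X0 + s) - v) ^ 2) +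
      (1 - a) * b * ((m1 * X0 - m2 * (Y0 + s) - u) ^ 2 + (m1 * (Y0 + s) + m2 * X0 - v) ^ 2) +
      a * b * ((m1 * (X0 + s) - m2 * (Y0 + s) - u) ^ 2 +
        (m1 * (Y0 + s) + m2 * (X0 + s) - v) ^ 2) -
      (m1 ^ 2 + m2 ^ 2) * s ^ 2 * (a * (1 - a) + b * (1 - b)) := by ring
  have a1 : 0 ≤ 1 - a := by linarith
  have b1 : 0 ≤ 1 - b := by linarith
  have w00 : 0 ≤ (1 - a) * (1 - b) := mul_nonneg a1 b1
  have w10 : 0 ≤ a * (1 - b) := mul_nonneg ha b1
  have w01 : 0 ≤ (1 - a) * b := mul_nonneg a1 hb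
  have w11 : 0 ≤ a * b := mul_nonneg ha hb
  have hsum : (1 - a) * (1 - b) + a * (1 - b) + (1 - a) * b + a * b = 1 := by ring
  have hneg : 0 ≤ (m1 ^ 2 + m2 ^ 2) * s ^ 2 * (a * (1 - a) + b * (1 - b)) := by
    have := mul_nonneg ha a1
    have := mul_nonneg hb b1
    positivity
  set F00 := (m1 * X0 - m2 * Y0 - u) ^ 2 + (m1 * Y0 + m2 * X0 - v) ^ 2
  set F10 := (m1 * (X0 + s) - m2 * Y0 - u) ^ 2 + (m1 * Y0 + m2 * (X0 + s) - v) ^ 2
  set F01 := (m1 * X0 - m2 * (Y0 + s) - u) ^ 2 + (m1 * (Y0 + s) + m2 * X0 - v) ^ 2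
  set F11 := (m1 * (X0 + s) - m2 * (Y0 + s) - u) ^ 2 + (m1 * (Y0 + s) + m2 * (X0 + s) - v) ^ 2
  set M := max (max F00 F10) (max F01 F11) with hM
  have hMlt : M < lim := max_lt (max_lt h00 h10) (max_lt h01 h11)
  have k00 : F00 ≤ M := le_trans (le_max_left _ _) (le_max_left _ _)
  have k10 : F10 ≤ M := le_trans (le_max_right _ _) (le_max_left _ _)
  have k01 : F01 ≤ M := le_trans (le_max_left _ _) (le_max_right _ _)
  have k11 : F11 ≤ M := le_trans (le_max_right _ _) (le_max_right _ _)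
  have t := mul_le_mul_of_nonneg_left k00 w00
  have t' := mul_le_mul_of_nonneg_left k10 w10
  have t'' := mul_le_mul_of_nonneg_left k01 w01
  have t''' := mul_le_mul_of_nonneg_left k11 w11
  have : (1 - a) * (1 - b) * M + a * (1 - b) * M + (1 - a) * b * M + a * b * M = M := by ring
  rw [e]
  linarith

theorem inside_sound {S : ℤ} (hS : 0 < S) {c : Ce} {X Y s : ℤ} (hs : 0 < s)
    (h : inside S c X Y s = true) {x y : ℝ} (h1 : (X : ℝ) ≤ S * x) (h2 : (S : ℝ) * x ≤ X + s)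
    (h3 : (Y : ℝ) ≤ S * y) (h4 : (S : ℝ) * y ≤ Y + s) :
    ((c.m1 : ℝ) * x - c.m2 * y - c.a2) ^ 2 + ((c.m1 : ℝ) * y + c.m2 * x - c.b2) ^ 2 <
      ((c.m1 : ℝ) - c.A) ^ 2 := by
  simp only [inside, Bool.and_eq_true] at h
  obtain ⟨k00, k10, k01, k11⟩ := h
  replace k00 := corner_iff k00
  replace k10 := corner_iff k10
  replace k01 := corner_iff k01
  replace k11 := corner_iff k11
  push_cast at k00 k10 k01 k11
  have hs' : (0 : ℝ) < s := by exact_mod_cast hs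
  have hS' : (0 : ℝ) < S := by exact_mod_cast hS
  have key := interp c.m1 c.m2 (S * c.a2) (S * c.b2) X Y s ((S * x - X) / s) ((S * y - Y) / s)
    (((S : ℝ) * (c.m1 - c.A)) ^ 2) (div_nonneg (by linarith) hs'.le)
    ((div_le_one hs').2 (by linarith)) (div_nonneg (by linarith) hs'.le)
    ((div_le_one hs').2 (by linarith)) k00 k10 k01 k11
  rw [div_mul_cancel₀ _ hs'.ne', div_mul_cancel₀ _ hs'.ne'] at key
  have e1 : (X : ℝ) + (S * x - X) = S * x := by ring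
  have e2 : (Y : ℝ) + (S * y - Y) = S * y := by ring
  rw [e1, e2] at key
  have e3 : ((c.m1 : ℝ) * (S * x) - c.m2 * (S * y) - S * c.a2) ^ 2 +
      ((c.m1 : ℝ) * (S * y) + c.m2 * (S * x) - S * c.b2) ^ 2 =
      (S : ℝ) ^ 2 * (((c.m1 : ℝ) * x - c.m2 * y - c.a2) ^ 2 +
        ((c.m1 : ℝ) * y + c.m2 * x - c.b2) ^ 2) := by ring
  rw [e3, mul_pow] at key
  exact lt_of_mul_lt_mul_left key (by positivity)

theorem near_sq {X s : ℤ} {t : ℝ} (h1 : (X : ℝ) ≤ t) (h2 : t ≤ X + s) :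
    ((near X s : ℤ) : ℝ) * ((near X s : ℤ) : ℝ) ≤ t * t := by
  unfold near
  split_ifs with h h'
  · have : (0 : ℝ) < X := by exact_mod_cast h
    nlinarith
  · have : ((X : ℝ) + s) < 0 := by exact_mod_cast h'
    push_cast
    nlinarith
  · simpa using mul_self_nonneg t

theorem outside_sound {S : ℤ} {X Y s : ℤ} (h : outside S X Y s = true) {x y : ℝ}
    (h1 : (X : ℝ) ≤ S * x) (h2 : (S : ℝ) * x ≤ X + s)
    (h3 : (Y : ℝ) ≤ S * y) (h4 : (S : ℝ) * y ≤ Y + s) (hxy : x ^ 2 + y ^ 2 ≤ 1) : False := by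
  have k := of_decide_eq_true h
  have k' : ((S : ℝ)) * S < ((near X s : ℤ) : ℝ) * ((near X s : ℤ) : ℝ) +
      ((near Y s : ℤ) : ℝ) * ((near Y s : ℤ) : ℝ) := by exact_mod_cast k
  have a := near_sq h1 h2
  have b := near_sq h3 h4
  have : (S : ℝ) * x * (S * x) + S * y * (S * y) = S ^ 2 * (x ^ 2 + y ^ 2) := by ring
  have h5 : (S : ℝ) ^ 2 * (x ^ 2 + y ^ 2) ≤ S ^ 2 * 1 :=
    mul_le_mul_of_nonneg_left hxy (by positivity)
  nlinarith

theorem cov_sound {S : ℤ} (hS : 0 < S) {L : List Ce} : ∀ (d : ℕ) (X Y : ℤ),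
    cov S L d X Y = true → ∀ x y : ℝ, (X : ℝ) ≤ S * x → (S : ℝ) * x ≤ X + ((2 ^ d : ℕ) : ℝ) →
    (Y : ℝ) ≤ S * y → (S : ℝ) * y ≤ Y + ((2 ^ d : ℕ) : ℝ) → x ^ 2 + y ^ 2 ≤ 1 →
    ∃ c ∈ L, ((c.m1 : ℝ) * x - c.m2 * y - c.a2) ^ 2 + ((c.m1 : ℝ) * y + c.m2 * x - c.b2) ^ 2 <
      ((c.m1 : ℝ) - c.A) ^ 2 := by
  intro d
  induction d with
  | zero =>
    intro X Y h x y h1 h2 h3 h4 hxy
    simp only [cov, Bool.or_eq_true, List.any_eq_true] at h
    simp only [pow_zero, Nat.cast_one] at h2 h4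
    rcases h with h | ⟨c, hc, h⟩
    · exact (outside_sound h h1 (by exact_mod_cast h2) h3 (by exact_mod_cast h4) hxy).elim
    · exact ⟨c, hc, inside_sound hS one_pos h h1 (by exact_mod_cast h2) h3
        (by exact_mod_cast h4)⟩
  | succ d ih =>
    intro X Y h x y h1 h2 h3 h4 hxy
    simp only [cov, Bool.or_eq_true, List.any_eq_true, Bool.and_eq_true] at h
    have e2 : ((2 ^ (d + 1) : ℕ) : ℝ) = ((2 ^ d : ℕ) : ℝ) + ((2 ^ d : ℕ) : ℝ) := by
      push_cast; ring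
    rw [e2] at h2 h4
    have hc2 : ((((2 ^ d : ℕ) : ℤ)) : ℝ) = ((2 ^ d : ℕ) : ℝ) := by push_cast; rfl
    rcases h with h | ⟨c, hc, h⟩ | ⟨h00, h10, h01, h11⟩
    · refine (outside_sound h h1 ?_ h3 ?_ hxy).elim
      · push_cast at h2 ⊢; linarith
      · push_cast at h4 ⊢; linarith
    · refine ⟨c, hc, inside_sound hS (by positivity) h h1 ?_ h3 ?_⟩
      · push_cast at h2 ⊢; linarith
      · push_cast at h4 ⊢; linarith
    · have cX : ((X + ((2 ^ d : ℕ) : ℤ) : ℤ) : ℝ) = X + ((2 ^ d : ℕ) : ℝ) := by push_cast; ring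
      have cY : ((Y + ((2 ^ d : ℕ) : ℤ) : ℤ) : ℝ) = Y + ((2 ^ d : ℕ) : ℝ) := by push_cast; ring
      rcases le_total ((S : ℝ) * x) (X + ((2 ^ d : ℕ) : ℝ)) with hx | hx
      · rcases le_total ((S : ℝ) * y) (Y + ((2 ^ d : ℕ) : ℝ)) with hy | hy
        · exact ih X Y h00 x y h1 hx h3 hy hxy
        · exact ih X _ h01 x y h1 hx (by rw [cY]; exact hy) (by rw [cY]; linarith) hxy
      · rcases le_total ((S : ℝ) * y) (Y + ((2 ^ d : ℕ) : ℝ)) with hy | hy
        · exact ih _ Y h10 x y (by rw [cX]; exact hx) (by rw [cX]; linarith) h3 hy hxy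
        · exact ih _ _ h11 x y (by rw [cX]; exact hx) (by rw [cX]; linarith)
            (by rw [cY]; exact hy) (by rw [cY]; linarith) hxy

/-- the first coordinate: an arc of the unit circle -/
theorem arc_sound {c : Ce} {a b V a' b' V' : ℤ} (hV : 0 < V) (hV' : 0 < V')
    (hv : a * a + b * b = V * V) (hv' : a' * a' + b' * b' = V' * V')
    (hcr : 0 < a * b' - b * a')
    (h : ok1 c a b V = true) (h' : ok1 c a' b' V' = true) {x y : ℝ} (hxy : x ^ 2 + y ^ 2 = 1)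
    (h1 : 0 ≤ (a : ℝ) * y - b * x) (h2 : 0 ≤ x * (b' : ℝ) - y * a') :
    ((c.m1 : ℝ) * x - c.m2 * y - c.a1) ^ 2 + ((c.m1 : ℝ) * y + c.m2 * x - c.b1) ^ 2 ≤
      (c.A : ℝ) ^ 2 := by
  simp only [ok1, Bool.and_eq_true] at h h'
  obtain ⟨n0, n1⟩ := h
  obtain ⟨n0', n1'⟩ := h'
  replace n0 := of_decide_eq_true n0
  replace n1 := of_decide_eq_true n1
  replace n0' := of_decide_eq_true n0'
  replace n1' := of_decide_eq_true n1'
  set q1 : ℝ := c.m1 * c.a1 + c.m2 * c.b1 with hq1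
  set q2 : ℝ := c.m2 * c.a1 - c.m1 * c.b1 with hq2
  set T : ℝ := c.m1 * c.m1 + c.m2 * c.m2 + c.a1 * c.a1 + c.b1 * c.b1 - c.A * c.A with hT
  have r0 : (0 : ℝ) ≤ a * q1 - b * q2 := by rw [hq1, hq2]; exact_mod_cast n0
  have r1 : (V : ℝ) * T ≤ 2 * (a * q1 - b * q2) := by rw [hq1, hq2, hT]; exact_mod_cast n1
  have r0' : (0 : ℝ) ≤ a' * q1 - b' * q2 := by rw [hq1, hq2]; exact_mod_cast n0'
  have r1' : (V' : ℝ) * T ≤ 2 * (a' * q1 - b' * q2) := by rw [hq1, hq2, hT]; exact_mod_cast n1'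
  have hc : (0 : ℝ) < a * b' - b * a' := by exact_mod_cast hcr
  have rV : (0 : ℝ) < V := by exact_mod_cast hV
  have rV' : (0 : ℝ) < V' := by exact_mod_cast hV'
  have rv : (a : ℝ) * a + b * b = V * V := by exact_mod_cast hv
  have rv' : (a' : ℝ) * a' + b' * b' = V' * V' := by exact_mod_cast hv'
  set D : ℝ := a * b' - b * a' with hD
  set l : ℝ := (x * (b' : ℝ) - y * a') / D with hl
  set l' : ℝ := ((a : ℝ) * y - b * x) / D with hl'
  have l0 : 0 ≤ l := div_nonneg h2 hc.le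
  have l0' : 0 ≤ l' := div_nonneg h1 hc.le
  have ex : x = l * a + l' * a' := by
    rw [hl, hl']
    field_simp
    rw [hD]; ring
  have ey : y = l * b + l' * b' := by
    rw [hl, hl']
    field_simp
    rw [hD]; ring
  have hdot : (a : ℝ) * a' + b * b' ≤ V * V' := by
    have h5 : ((a : ℝ) * a' + b * b') ^ 2 ≤ (V * V') ^ 2 := by
      have : ((V : ℝ) * V') ^ 2 = (a * a + b * b) * (a' * a' + b' * b') := by
        rw [rv, rv']; ring
      rw [this]
      nlinarith [sq_nonneg ((a : ℝ) * b' - b * a')]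
    exact le_trans (le_abs_self _) (abs_le_of_sq_le_sq h5 (by positivity))
  have hsum : 1 ≤ l * V + l' * V' := by
    have h6 : (1 : ℝ) ≤ (l * V + l' * V') ^ 2 := by
      have h7 : x ^ 2 + y ^ 2 = l ^ 2 * (a * a + b * b) + l' ^ 2 * (a' * a' + b' * b') +
          2 * (l * l') * (a * a' + b * b') := by rw [ex, ey]; ring
      have h8 : 2 * (l * l') * ((a : ℝ) * a' + b * b') ≤ 2 * (l * l') * (V * V') :=
        mul_le_mul_of_nonneg_left hdot (by positivity)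
      rw [rv, rv', hxy] at h7
      calc (1 : ℝ) = _ := h7
        _ ≤ l ^ 2 * (V * V) + l' ^ 2 * (V' * V') + 2 * (l * l') * (V * V') := by linarith
        _ = (l * V + l' * V') ^ 2 := by ring
    have h9 : 0 ≤ l * V + l' * V' := by positivity
    exact (one_le_sq_iff₀ h9).1 h6
  have hre : T ≤ 2 * (x * q1 - y * q2) := by
    have e : x * q1 - y * q2 = l * (a * q1 - b * q2) + l' * (a' * q1 - b' * q2) := by
      rw [ex, ey]; ring
    rw [e]
    rcases le_or_gt T 0 with hT0 | hT0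
    · have := mul_nonneg l0 r0
      have := mul_nonneg l0' r0'
      linarith
    · have k1 := mul_le_mul_of_nonneg_left r1 l0
      have k2 := mul_le_mul_of_nonneg_left r1' l0'
      have k3 : T ≤ (l * V + l' * V') * T := le_mul_of_one_le_left hT0.le hsum
      have k4 : (l * V + l' * V') * T = l * (V * T) + l' * (V' * T) := by ring
      linarith
  have efin : ((c.m1 : ℝ) * x - c.m2 * y - c.a1) ^ 2 + ((c.m1 : ℝ) * y + c.m2 * x - c.b1) ^ 2 =
      (c.m1 ^ 2 + c.m2 ^ 2) * (x ^ 2 + y ^ 2) + (c.a1 ^ 2 + c.b1 ^ 2) - 2 * (x * q1 - y * q2) := by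
    rw [hq1, hq2]; ring
  rw [efin, hxy]
  have : (c.A : ℝ) ^ 2 = (c.m1 * c.m1 + c.m2 * c.m2 + c.a1 * c.a1 + c.b1 * c.b1) - T := by
    rw [hT]; ring
  rw [this]
  linarith

end Pool.Agent.Zk84.HC
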