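import Pool.Agent.Zk84.HC.Check

/-!
The sixteen directions and the data of the cover.
-/

set_option autoImplicit false

namespace Pool.Agent.Zk84.HC

/-- the part of the data for one arc of the first coordinate: its end points are
`((1024 - p²) + 64 p i) / (1024 + p²)` for `p = p0, p1` -/
structure Arc where
  p0 : ℤ
  p1 : ℤ
  n : ℕ
  L : List Ce

/-- the sixteen directions -/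
def dirs : List (ℤ × ℤ × ℤ × ℤ) :=
  [(64, 0, 43, 0), (0, 64, 0, 43), (-64, 0, -43, 0), (0, -64, 0, -43), (-26, -33, -55, 32), (33, -26, -32, -55), (26, 33, 55, -32), (-33, 26, 32, 55), (27, -41, 55, 32), (41, 27, -32, 55), (-27, 41, -55, -32), (-41, -27, 32, -55), (53, 36, -38, -31), (-36, 53, 31, -38), (-53, -36, 38, 31), (36, -53, -31, 38)]

/-- the directions with the coordinates exchanged -/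
def dirs' : List (ℤ × ℤ × ℤ × ℤ) := dirs.map fun d => (d.2.2.1, d.2.2.2, d.1, d.2.1)

/-- the check of a certificate on the arc with the parameters `p`, `q` -/
def certOK (D : List (ℤ × ℤ × ℤ × ℤ)) (p q : ℤ) (c : Ce) : Bool :=
  D.contains (c.a1, c.b1, c.a2, c.b2) && (decide (0 ≤ c.A) && (decide (c.A < c.m1) &&
    (ok1 c (1024 - p * p) (64 * p) (1024 + p * p) &&
      ok1 c (1024 - q * q) (64 * q) (1024 + q * q))))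

/-- the check of the data of an arc -/
def arcOK (D : List (ℤ × ℤ × ℤ × ℤ)) (T : Arc) : Bool :=
  decide (0 ≤ T.p0) && (decide (T.p0 < T.p1) && (decide (T.p1 ≤ 32) &&
    (T.L.all (certOK D T.p0 T.p1) &&
      cov ((2 ^ T.n : ℕ) : ℤ) T.L (T.n + 1) (-((2 ^ T.n : ℕ) : ℤ)) (-((2 ^ T.n : ℕ) : ℤ)))))

/-- the arcs of the list follow each other, from `p` to the end `32` -/
def chainOK : ℤ → List Arc → Bool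
  | _, [] => false
  | p, [T] => decide (T.p0 = p) && decide (T.p1 = 32)
  | p, T :: U :: l => decide (T.p0 = p) && chainOK T.p1 (U :: l)

def arc0_0 : Arc :=
  ⟨0, 2, 4,
     [⟨64, 0, 43, 0, 64, -4, 4⟩, ⟨53, 36, -38, -31, 56, 32, 5⟩, ⟨41, 27, -32, 55, 60, 20, 21⟩, 
      ⟨33, -26, -32, -55, 36, -36, 11⟩, ⟨33, -26, -32, -55, 68, -28, 39⟩, 
      ⟨41, 27, -32, 55, 56, -4, 35⟩, ⟨27, -41, 55, 32, 36, -44, 15⟩]⟩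

def arc0_1 : Arc :=
  ⟨2, 4, 4,
     [⟨64, 0, 43, 0, 64, -12, 5⟩, ⟨53, 36, -38, -31, 60, 24, 6⟩, ⟨41, 27, -32, 55, 60, 16, 17⟩, 
      ⟨26, 33, 55, -32, 56, 36, 27⟩, ⟨33, -26, -32, -55, 48, -28, 24⟩, 
      ⟨33, -26, -32, -55, 68, -48, 45⟩, ⟨41, 27, -32, 55, 52, -4, 27⟩]⟩

def arc0_2 : Arc :=
  ⟨4, 6, 4,
     [⟨64, 0, 43, 0, 64, -20, 6⟩, ⟨53, 36, -38, -31, 68, 20, 8⟩, ⟨41, 27, -32, 55, 52, 8, 10⟩, 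
      ⟨26, 33, 55, -32, 56, 36, 25⟩, ⟨33, -26, -32, -55, 48, -32, 27⟩, 
      ⟨26, 33, 55, -32, 60, 36, 29⟩]⟩

def arc0_3 : Arc :=
  ⟨6, 8, 4,
     [⟨53, 36, -38, -31, 68, 12, 7⟩, ⟨64, 0, 43, 0, 60, -28, 5⟩, ⟨41, 27, -32, 55, 52, 4, 8⟩, 
      ⟨26, 33, 55, -32, 60, 24, 24⟩, ⟨33, -26, -32, -55, 56, -44, 40⟩]⟩

def arc0_4 : Arc :=
  ⟨8, 10, 4,
     [⟨53, 36, -38, -31, 68, 4, 7⟩, ⟨64, 0, 43, 0, 56, -32, 6⟩, ⟨41, 27, -32, 55, 52, 0, 6⟩, 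
      ⟨26, 33, 55, -32, 52, 20, 15⟩, ⟨26, 33, 55, -32, 64, 16, 26⟩]⟩

def arc0_5 : Arc :=
  ⟨10, 12, 4,
     [⟨53, 36, -38, -31, 68, -4, 6⟩, ⟨64, 0, 43, 0, 52, -40, 5⟩, ⟨41, 27, -32, 55, 52, -4, 5⟩, 
      ⟨26, 33, 55, -32, 56, 12, 16⟩, ⟨64, 0, 43, 0, 64, -36, 17⟩]⟩

def arc0_6 : Arc :=
  ⟨12, 14, 4,
     [⟨53, 36, -38, -31, 68, -12, 7⟩, ⟨41, 27, -32, 55, 64, -8, 17⟩, 
      ⟨26, 33, 55, -32, 56, 8, 15⟩, ⟨0, 64, 0, 43, 48, 12, 37⟩, ⟨64, 0, 43, 0, 56, -36, 17⟩, 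
      ⟨64, 0, 43, 0, 76, -32, 36⟩, ⟨0, 64, 0, 43, 56, 44, 15⟩, ⟨41, 27, -32, 55, 48, -36, 30⟩]⟩

def arc0_7 : Arc :=
  ⟨14, 16, 4,
     [⟨53, 36, -38, -31, 68, -20, 8⟩, ⟨0, 64, 0, 43, 48, 40, 4⟩, 
      ⟨41, 27, -32, 55, 56, -16, 10⟩, ⟨26, 33, 55, -32, 56, 4, 15⟩, 
      ⟨26, 33, 55, -32, 72, -4, 31⟩, ⟨0, 64, 0, 43, 52, 40, 7⟩]⟩

def arc0_8 : Arc :=
  ⟨16, 18, 4,
     [⟨53, 36, -38, -31, 60, -24, 4⟩, ⟨0, 64, 0, 43, 56, 36, 6⟩, ⟨41, 27, -32, 55, 52, -20, 8⟩, 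
      ⟨26, 33, 55, -32, 56, -4, 15⟩, ⟨0, 64, 0, 43, 60, 32, 11⟩, ⟨26, 33, 55, -32, 64, -4, 23⟩, 
      ⟨-27, 41, -55, -32, 56, 40, 40⟩]⟩

def arc0_9 : Arc :=
  ⟨18, 20, 4,
     [⟨0, 64, 0, 43, 60, 32, 6⟩, ⟨53, 36, -38, -31, 60, -28, 6⟩, ⟨41, 27, -32, 55, 48, -24, 6⟩, 
      ⟨26, 33, 55, -32, 56, -8, 15⟩, ⟨-27, 41, -55, -32, 56, 32, 38⟩, 
      ⟨26, 33, 55, -32, 48, 4, 15⟩, ⟨41, 27, -32, 55, 64, -32, 23⟩, 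
      ⟨26, 33, 55, -32, 64, -8, 23⟩]⟩

def arc0_10 : Arc :=
  ⟨20, 22, 4,
     [⟨0, 64, 0, 43, 60, 24, 5⟩, ⟨53, 36, -38, -31, 56, -36, 5⟩, 
      ⟨41, 27, -32, 55, 56, -36, 18⟩, ⟨-27, 41, -55, -32, 68, 24, 47⟩, 
      ⟨53, 36, -38, -31, 68, -28, 18⟩, ⟨26, 33, 55, -32, 72, -20, 33⟩, 
      ⟨26, 33, 55, -32, 48, 0, 15⟩, ⟨41, 27, -32, 55, 68, -40, 31⟩]⟩

def arc0_11 : Arc :=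
  ⟨22, 24, 4,
     [⟨0, 64, 0, 43, 60, 20, 3⟩, ⟨53, 36, -38, -31, 52, -40, 4⟩, ⟨26, 33, 55, -32, 72, -8, 34⟩, 
      ⟨41, 27, -32, 55, 48, -40, 14⟩, ⟨-27, 41, -55, -32, 68, 24, 43⟩, 
      ⟨-27, 41, -55, -32, 108, 48, 80⟩, ⟨26, 33, 55, -32, 52, 4, 24⟩, 
      ⟨26, 33, 55, -32, 40, -24, 12⟩, ⟨41, 27, -32, 55, 40, -32, 4⟩, 
      ⟨-27, 41, -55, -32, 60, 12, 42⟩]⟩

def arc0_12 : Arc :=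
  ⟨24, 26, 4,
     [⟨0, 64, 0, 43, 64, 16, 4⟩, ⟨53, 36, -38, -31, 52, -44, 6⟩, ⟨41, 27, -32, 55, 36, -32, 3⟩, 
      ⟨53, 36, -38, -31, 72, -28, 31⟩, ⟨26, 33, 55, -32, 56, 12, 36⟩, 
      ⟨-27, 41, -55, -32, 60, 8, 41⟩, ⟨26, 33, 55, -32, 40, -28, 13⟩, 
      ⟨-27, 41, -55, -32, 80, 40, 49⟩, ⟨26, 33, 55, -32, 76, -16, 39⟩]⟩

def arc0_13 : Arc :=
  ⟨26, 28, 4,
     [⟨0, 64, 0, 43, 64, 12, 4⟩, ⟨-36, 53, 31, -38, 48, 44, 5⟩, 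
      ⟨-27, 41, -55, -32, 64, 32, 30⟩, ⟨26, 33, 55, -32, 64, -12, 30⟩, 
      ⟨53, 36, -38, -31, 64, -24, 32⟩, ⟨41, 27, -32, 55, 36, -36, 4⟩, 
      ⟨-36, 53, 31, -38, 60, 32, 21⟩, ⟨26, 33, 55, -32, 36, -24, 6⟩, 
      ⟨-27, 41, -55, -32, 108, 28, 74⟩, ⟨-27, 41, -55, -32, 52, 12, 29⟩, 
      ⟨26, 33, 55, -32, 68, -20, 32⟩]⟩

def arc0_14 : Arc :=
  ⟨28, 30, 4,
     [⟨0, 64, 0, 43, 64, 8, 4⟩, ⟨-36, 53, 31, -38, 48, 40, 3⟩, ⟨-27, 41, -55, -32, 64, 28, 28⟩, 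
      ⟨26, 33, 55, -32, 68, -16, 35⟩, ⟨41, 27, -32, 55, 36, -40, 7⟩, 
      ⟨-27, 41, -55, -32, 60, 0, 40⟩, ⟨26, 33, 55, -32, 36, -28, 7⟩, 
      ⟨-27, 41, -55, -32, 100, 24, 64⟩, ⟨-36, 53, 31, -38, 56, 32, 14⟩]⟩

def arc0_15 : Arc :=
  ⟨30, 32, 4,
     [⟨0, 64, 0, 43, 68, 0, 6⟩, ⟨-36, 53, 31, -38, 52, 36, 4⟩, ⟨-27, 41, -55, -32, 64, 24, 26⟩, 
      ⟨26, 33, 55, -32, 36, -32, 9⟩, ⟨-27, 41, -55, -32, 56, 4, 31⟩, 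
      ⟨26, 33, 55, -32, 52, -12, 24⟩, ⟨41, 27, -32, 55, 32, -40, 6⟩, 
      ⟨26, 33, 55, -32, 68, -32, 36⟩]⟩

def arcs0 : List Arc :=
  [arc0_0, arc0_1, arc0_2, arc0_3, arc0_4, arc0_5, arc0_6, arc0_7, arc0_8, arc0_9, arc0_10, arc0_11, arc0_12, arc0_13, arc0_14, arc0_15]

def arc1_0 : Arc :=
  ⟨0, 2, 4,
     [⟨55, -32, 26, 33, 56, -36, 7⟩, ⟨55, 32, 27, -41, 60, 28, 7⟩, 
      ⟨38, 31, -53, -36, 56, 36, 19⟩, ⟨43, 0, 64, 0, 52, -4, 10⟩, 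
      ⟨31, -38, -36, 53, 64, -24, 42⟩, ⟨38, 31, -53, -36, 76, 16, 41⟩, 
      ⟨38, 31, -53, -36, 112, 52, 77⟩, ⟨43, 0, 64, 0, 64, -4, 22⟩, 
      ⟨55, 32, 27, -41, 64, 32, 9⟩]⟩

def arc1_1 : Arc :=
  ⟨2, 4, 4,
     [⟨55, 32, 27, -41, 63, 21, 6⟩, ⟨55, -32, 26, 33, 48, -42, 5⟩, 
      ⟨38, 31, -53, -36, 57, 30, 16⟩, ⟨43, 0, 64, 0, 60, -15, 20⟩, 
      ⟨31, -38, -36, 53, 63, -24, 47⟩, ⟨38, 31, -53, -36, 111, 45, 72⟩, 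
      ⟨38, 31, -53, -36, 51, 0, 28⟩, ⟨55, -32, 26, 33, 54, -30, 17⟩, 
      ⟨43, 0, 64, 0, 72, -15, 31⟩, ⟨32, 55, -33, 26, 102, 39, 65⟩, 
      ⟨32, 55, -33, 26, 60, 27, 32⟩]⟩

def arc1_2 : Arc :=
  ⟨4, 5, 4,
     [⟨55, 32, 27, -41, 64, 16, 4⟩, ⟨32, 55, -33, 26, 48, 44, 4⟩, 
      ⟨31, -38, -36, 53, 60, -32, 45⟩, ⟨38, 31, -53, -36, 68, 20, 24⟩, 
      ⟨43, 0, 64, 0, 60, -16, 20⟩, ⟨55, -32, 26, 33, 48, -36, 13⟩, ⟨43, 0, 64, 0, 48, -24, 15⟩, 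
      ⟨32, 55, -33, 26, 52, 16, 31⟩, ⟨32, 55, -33, 26, 56, 40, 13⟩]⟩

def arc1_3 : Arc :=
  ⟨5, 6, 5,
     [⟨55, 32, 27, -41, 64, 12, 3⟩, ⟨32, 55, -33, 26, 48, 40, 3⟩, 
      ⟨38, 31, -53, -36, 52, 20, 8⟩, ⟨43, 0, 64, 0, 56, -24, 19⟩, 
      ⟨32, 55, -33, 26, 56, 32, 14⟩, ⟨43, 0, 64, 0, 48, -36, 24⟩, 
      ⟨32, 55, -33, 26, 64, 32, 20⟩, ⟨31, -38, -36, 53, 56, -40, 42⟩]⟩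

def arc1_4 : Arc :=
  ⟨6, 8, 5,
     [⟨55, 32, 27, -41, 68, 4, 8⟩, ⟨32, 55, -33, 26, 52, 36, 5⟩, 
      ⟨38, 31, -53, -36, 60, 16, 14⟩, ⟨43, 0, 64, 0, 52, -24, 15⟩, 
      ⟨32, 55, -33, 26, 56, 24, 17⟩, ⟨0, 43, 0, 64, 52, 40, 37⟩, ⟨55, 32, 27, -41, 60, 8, 7⟩, 
      ⟨38, 31, -53, -36, 52, 16, 8⟩]⟩

def arc1_5 : Arc :=
  ⟨8, 10, 4,
     [⟨55, 32, 27, -41, 68, 0, 7⟩, ⟨32, 55, -33, 26, 60, 32, 7⟩, ⟨38, 31, -53, -36, 52, 8, 6⟩, 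
      ⟨43, 0, 64, 0, 56, -32, 22⟩, ⟨0, 43, 0, 64, 44, 36, 24⟩, ⟨32, 55, -33, 26, 56, 12, 22⟩]⟩

def arc1_6 : Arc :=
  ⟨10, 12, 4,
     [⟨32, 55, -33, 26, 60, 24, 4⟩, ⟨55, 32, 27, -41, 64, -8, 5⟩, ⟨38, 31, -53, -36, 52, 0, 5⟩, 
      ⟨43, 0, 64, 0, 44, -32, 13⟩, ⟨43, 0, 64, 0, 48, -36, 18⟩]⟩

def arc1_7 : Arc :=
  ⟨12, 14, 4,
     [⟨32, 55, -33, 26, 64, 16, 6⟩, ⟨55, 32, 27, -41, 64, -16, 5⟩, 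
      ⟨38, 31, -53, -36, 48, -4, 3⟩, ⟨43, 0, 64, 0, 44, -36, 16⟩, ⟨0, 43, 0, 64, 60, 40, 33⟩]⟩

def arc1_8 : Arc :=
  ⟨14, 16, 4,
     [⟨32, 55, -33, 26, 68, 12, 7⟩, ⟨55, 32, 27, -41, 60, -20, 5⟩, 
      ⟨38, 31, -53, -36, 48, -8, 4⟩, ⟨0, 43, 0, 64, 48, 36, 18⟩, ⟨43, 0, 64, 0, 68, -36, 43⟩]⟩

def arc1_9 : Arc :=
  ⟨16, 18, 4,
     [⟨32, 55, -33, 26, 64, 4, 4⟩, ⟨55, 32, 27, -41, 60, -28, 5⟩, 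
      ⟨38, 31, -53, -36, 48, -16, 5⟩, ⟨0, 43, 0, 64, 48, 32, 15⟩, ⟨43, 0, 64, 0, 44, -32, 23⟩, 
      ⟨43, 0, 64, 0, 60, -56, 43⟩, ⟨55, 32, 27, -41, 60, -24, 8⟩]⟩

def arc1_10 : Arc :=
  ⟨18, 20, 4,
     [⟨32, 55, -33, 26, 66, -3, 5⟩, ⟨55, 32, 27, -41, 57, -33, 5⟩, 
      ⟨38, 31, -53, -36, 51, -21, 7⟩, ⟨0, 43, 0, 64, 51, 27, 15⟩, ⟨43, 0, 64, 0, 48, -36, 30⟩, 
      ⟨55, 32, 27, -41, 60, -18, 19⟩, ⟨55, 32, 27, -41, 63, -30, 12⟩, 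
      ⟨-31, 38, 36, -53, 63, 36, 48⟩]⟩

def arc1_11 : Arc :=
  ⟨20, 22, 4,
     [⟨32, 55, -33, 26, 68, -8, 6⟩, ⟨55, 32, 27, -41, 52, -36, 5⟩, 
      ⟨38, 31, -53, -36, 52, -28, 11⟩, ⟨0, 43, 0, 64, 56, 32, 23⟩, 
      ⟨55, 32, 27, -41, 72, -20, 30⟩, ⟨43, 0, 64, 0, 56, -40, 41⟩, 
      ⟨-31, 38, 36, -53, 60, 28, 43⟩, ⟨0, 43, 0, 64, 68, 32, 33⟩, 
      ⟨-32, 55, 41, 27, 52, 20, 37⟩]⟩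

def arc1_12 : Arc :=
  ⟨22, 24, 4,
     [⟨32, 55, -33, 26, 63, -12, 4⟩, ⟨55, 32, 27, -41, 48, -42, 3⟩, 
      ⟨38, 31, -53, -36, 48, -30, 8⟩, ⟨-31, 38, 36, -53, 69, 21, 50⟩, 
      ⟨-31, 38, 36, -53, 99, 54, 76⟩, ⟨-32, 55, 41, 27, 57, 18, 36⟩, 
      ⟨55, 32, 27, -41, 66, -36, 22⟩, ⟨38, 31, -53, -36, 84, -45, 47⟩, 
      ⟨0, 43, 0, 64, 45, 21, 10⟩, ⟨0, 43, 0, 64, 69, 27, 32⟩]⟩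

def arc1_13 : Arc :=
  ⟨24, 26, 4,
     [⟨32, 55, -33, 26, 64, -16, 6⟩, ⟨-32, 55, 41, 27, 48, 44, 5⟩, ⟨0, 43, 0, 64, 60, 20, 22⟩, 
      ⟨-31, 38, 36, -53, 72, 28, 46⟩, ⟨-31, 38, 36, -53, 112, 56, 86⟩, 
      ⟨55, 32, 27, -41, 60, -28, 26⟩, ⟨-32, 55, 41, 27, 56, 12, 37⟩, 
      ⟨38, 31, -53, -36, 52, -32, 14⟩, ⟨0, 43, 0, 64, 72, 16, 31⟩, 
      ⟨55, 32, 27, -41, 60, -44, 18⟩, ⟨-31, 38, 36, -53, 56, 20, 35⟩]⟩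

def arc1_14 : Arc :=
  ⟨26, 28, 4,
     [⟨32, 55, -33, 26, 64, -24, 6⟩, ⟨-32, 55, 41, 27, 48, 40, 3⟩, ⟨0, 43, 0, 64, 60, 12, 19⟩, 
      ⟨38, 31, -53, -36, 44, -36, 9⟩, ⟨-31, 38, 36, -53, 72, 32, 42⟩, 
      ⟨-31, 38, 36, -53, 104, 48, 74⟩, ⟨-31, 38, 36, -53, 60, 8, 42⟩, 
      ⟨-32, 55, 41, 27, 60, 32, 17⟩, ⟨38, 31, -53, -36, 48, -28, 14⟩, 
      ⟨55, 32, 27, -41, 84, -44, 46⟩]⟩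

def arc1_15 : Arc :=
  ⟨28, 30, 4,
     [⟨32, 55, -33, 26, 60, -28, 4⟩, ⟨-32, 55, 41, 27, 52, 36, 4⟩, 
      ⟨-31, 38, 36, -53, 60, 40, 27⟩, ⟨0, 43, 0, 64, 52, 8, 11⟩, 
      ⟨38, 31, -53, -36, 48, -28, 17⟩, ⟨-31, 38, 36, -53, 76, 20, 46⟩, 
      ⟨-31, 38, 36, -53, 116, 44, 83⟩, ⟨0, 43, 0, 64, 60, 4, 18⟩, 
      ⟨-31, 38, 36, -53, 56, 8, 36⟩]⟩

def arc1_16 : Arc :=
  ⟨30, 32, 4,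
     [⟨32, 55, -33, 26, 60, -32, 5⟩, ⟨-32, 55, 41, 27, 56, 32, 5⟩, 
      ⟨-31, 38, 36, -53, 60, 36, 25⟩, ⟨0, 43, 0, 64, 52, 0, 10⟩, 
      ⟨38, 31, -53, -36, 52, -28, 24⟩, ⟨-31, 38, 36, -53, 72, 12, 42⟩, 
      ⟨-31, 38, 36, -53, 88, 40, 53⟩]⟩

def arcs1 : List Arc :=
  [arc1_0, arc1_1, arc1_2, arc1_3, arc1_4, arc1_5, arc1_6, arc1_7, arc1_8, arc1_9, arc1_10, arc1_11, arc1_12, arc1_13, arc1_14, arc1_15, arc1_16]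

end Pool.Agent.Zk84.HC
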