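import Pool.Agent.Zk84.HC.Data

/-!
The selection lemma: for all `x1`, `x2` in the unit disc there are one of the sixteen directions
`u` and a complex number `μ` with `|μ x1 - u1| + |μ x2 - u2| < Re μ`.
-/

set_option autoImplicit false

namespace Pool.Agent.Zk84.HC

open Complex

theorem arcs0_ok : arcs0.all (arcOK dirs) = true := by decide +kernel

theorem arcs1_ok : arcs1.all (arcOK dirs') = true := by decide +kernel

theorem chain0_ok : chainOK 0 arcs0 = true := by decide +kernel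

theorem chain1_ok : chainOK 0 arcs1 = true := by decide +kernel

/-- multiplication by `i` -/
def rot (d : ℤ × ℤ × ℤ × ℤ) : ℤ × ℤ × ℤ × ℤ := (-d.2.1, d.1, -d.2.2.2, d.2.2.1)

theorem rot_mem : ∀ d ∈ dirs, rot d ∈ dirs := by decide +kernel

theorem rot_mem' : ∀ d ∈ dirs', rot d ∈ dirs' := by decide +kernel

/-- the direction, as a vector -/
def vec (d : ℤ × ℤ × ℤ × ℤ) : ℂ × ℂ := (⟨d.1, d.2.1⟩, ⟨d.2.2.1, d.2.2.2⟩)

/-- the arc of the point `(x, y)` -/
theorem find_arc {x y : ℝ} (hx : 0 ≤ x) : ∀ (l : List Arc) (p : ℤ), chainOK p l = true →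
    0 ≤ (1024 - (p : ℝ) * p) * y - (64 * p) * x →
    ∃ T ∈ l, 0 ≤ (1024 - (T.p0 : ℝ) * T.p0) * y - (64 * T.p0) * x ∧
      0 ≤ x * (64 * (T.p1 : ℝ)) - y * (1024 - T.p1 * T.p1) := by
  intro l
  induction l with
  | nil => intro p h; simp [chainOK] at h
  | cons T l ih =>
    intro p h hp
    cases l with
    | nil =>
      simp only [chainOK, Bool.and_eq_true, decide_eq_true_eq] at h
      obtain ⟨h0, h1⟩ := h
      refine ⟨T, List.mem_cons_self, by rw [h0]; exact hp, ?_⟩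
      rw [h1]
      push_cast
      nlinarith
    | cons U l =>
      simp only [chainOK, Bool.and_eq_true, decide_eq_true_eq] at h
      obtain ⟨h0, h1⟩ := h
      rcases le_total 0 (x * (64 * (T.p1 : ℝ)) - y * (1024 - T.p1 * T.p1)) with hq | hq
      · exact ⟨T, List.mem_cons_self, by rw [h0]; exact hp, hq⟩
      · obtain ⟨W, hW, h2⟩ := ih T.p1 h1 (by linarith)
        exact ⟨W, List.mem_cons_of_mem _ hW, h2⟩

theorem norm_le_of_sq {z : ℂ} {a : ℝ} (ha : 0 ≤ a) (h : z.re ^ 2 + z.im ^ 2 ≤ a ^ 2) :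
    ‖z‖ ≤ a := by
  rw [Complex.norm_eq_sqrt_sq_add_sq]
  exact Real.sqrt_le_iff.2 ⟨ha, h⟩

theorem norm_lt_of_sq {z : ℂ} {a : ℝ} (ha : 0 < a) (h : z.re ^ 2 + z.im ^ 2 < a ^ 2) :
    ‖z‖ < a := by
  rw [Complex.norm_eq_sqrt_sq_add_sq]
  exact (Real.sqrt_lt' ha).2 h

/-- the first coordinate is in the first quadrant and has the modulus one -/
theorem face_quadrant {D : List (ℤ × ℤ × ℤ × ℤ)} {l : List Arc} (hl : l.all (arcOK D) = true)
    (hch : chainOK 0 l = true) {x1 x2 : ℂ} (h1 : ‖x1‖ = 1) (hre : 0 ≤ x1.re) (him : 0 ≤ x1.im)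
    (h2 : ‖x2‖ ≤ 1) :
    ∃ d ∈ D, ∃ μ : ℂ, ‖μ * x1 - (vec d).1‖ + ‖μ * x2 - (vec d).2‖ < μ.re := by
  obtain ⟨T, hT, hp0, hp1⟩ := find_arc (x := x1.re) (y := x1.im) hre l 0 hch (by simpa using him)
  have hok := List.all_eq_true.1 hl T hT
  simp only [arcOK, Bool.and_eq_true, decide_eq_true_eq, List.all_eq_true] at hok
  obtain ⟨k0, k1, k2, hcert, hcov⟩ := hok
  have hn1 : x1.re ^ 2 + x1.im ^ 2 = 1 := by
    have := Complex.sq_norm x1
    rw [h1, Complex.normSq_apply] at this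
    nlinarith
  have hn2 : x2.re ^ 2 + x2.im ^ 2 ≤ 1 := by
    have := Complex.sq_norm x2
    rw [Complex.normSq_apply] at this
    have h3 : ‖x2‖ ^ 2 ≤ 1 := by nlinarith [norm_nonneg x2]
    nlinarith
  set S : ℤ := ((2 ^ T.n : ℕ) : ℤ) with hS
  have hS0 : 0 < S := by rw [hS]; positivity
  have hS1 : (0 : ℝ) < S := by exact_mod_cast hS0
  have e2 : ((2 ^ (T.n + 1) : ℕ) : ℝ) = 2 * (S : ℝ) := by
    rw [hS]; push_cast; ring
  have hr1 : |x2.re| ≤ 1 := abs_le_one_iff_mul_self_le_one.2 (by nlinarith [sq_nonneg x2.im])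
  have hr2 : |x2.im| ≤ 1 := abs_le_one_iff_mul_self_le_one.2 (by nlinarith [sq_nonneg x2.re])
  rw [abs_le] at hr1 hr2
  obtain ⟨c, hc, hlt⟩ := cov_sound hS0 (T.n + 1) (-S) (-S) hcov x2.re x2.im
    (by push_cast; nlinarith) (by rw [e2]; push_cast; nlinarith)
    (by push_cast; nlinarith) (by rw [e2]; push_cast; nlinarith) hn2
  have hcc := hcert c hc
  simp only [certOK, Bool.and_eq_true, decide_eq_true_eq, List.contains_eq_mem] at hcc
  obtain ⟨hmem, hA, hAm, o1, o2⟩ := hcc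
  have hle := arc_sound (c := c) (a := 1024 - T.p0 * T.p0) (b := 64 * T.p0)
    (V := 1024 + T.p0 * T.p0) (a' := 1024 - T.p1 * T.p1) (b' := 64 * T.p1)
    (V' := 1024 + T.p1 * T.p1) (by nlinarith) (by nlinarith) (by ring) (by ring)
    (by nlinarith [mul_nonneg k0 (k0.trans k1.le)]) o1 o2 hn1 (by push_cast; linarith) (by push_cast; linarith)
  have hA' : (0 : ℝ) ≤ c.A := by exact_mod_cast hA
  have hAm' : (c.A : ℝ) < c.m1 := by exact_mod_cast hAm
  refine ⟨(c.a1, c.b1, c.a2, c.b2), hmem, ⟨c.m1, c.m2⟩, ?_⟩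
  have b1 : ‖(⟨c.m1, c.m2⟩ : ℂ) * x1 - (vec (c.a1, c.b1, c.a2, c.b2)).1‖ ≤ c.A := by
    refine norm_le_of_sq hA' ?_
    simp only [vec, Complex.sub_re, Complex.mul_re, Complex.sub_im, Complex.mul_im]
    exact hle
  have b2 : ‖(⟨c.m1, c.m2⟩ : ℂ) * x2 - (vec (c.a1, c.b1, c.a2, c.b2)).2‖ < c.m1 - c.A := by
    refine norm_lt_of_sq (by linarith) ?_
    simp only [vec, Complex.sub_re, Complex.mul_re, Complex.sub_im, Complex.mul_im]
    exact hlt
  show _ < (c.m1 : ℝ)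
  linarith

/-- multiplication by `i` of a direction -/
theorem vec_rot (d : ℤ × ℤ × ℤ × ℤ) : vec (rot d) = (I * (vec d).1, I * (vec d).2) := by
  simp only [vec, rot]
  refine Prod.ext ?_ ?_
  · apply Complex.ext <;> simp
  · apply Complex.ext <;> simp

/-- the statement is invariant under the multiplication by `i` -/
theorem unrot {D : List (ℤ × ℤ × ℤ × ℤ)} (hD : ∀ d ∈ D, rot d ∈ D) {x1 x2 : ℂ}
    (h : ∃ d ∈ D, ∃ μ : ℂ, ‖μ * (-I * x1) - (vec d).1‖ + ‖μ * (-I * x2) - (vec d).2‖ < μ.re) :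
    ∃ d ∈ D, ∃ μ : ℂ, ‖μ * x1 - (vec d).1‖ + ‖μ * x2 - (vec d).2‖ < μ.re := by
  obtain ⟨d, hd, μ, h⟩ := h
  refine ⟨rot d, hD d hd, μ, ?_⟩
  rw [vec_rot]
  have e : ∀ x u : ℂ, ‖μ * x - I * u‖ = ‖μ * (-I * x) - u‖ := by
    intro x u
    have : μ * x - I * u = I * (μ * (-I * x) - u) := by
      linear_combination (μ * x) * I_mul_I
    rw [this, norm_mul, norm_I, one_mul]
  simpa only [e] using h

theorem face {D : List (ℤ × ℤ × ℤ × ℤ)} {l : List Arc} (hl : l.all (arcOK D) = true)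
    (hch : chainOK 0 l = true) (hD : ∀ d ∈ D, rot d ∈ D) {x1 x2 : ℂ} (h1 : ‖x1‖ = 1)
    (h2 : ‖x2‖ ≤ 1) :
    ∃ d ∈ D, ∃ μ : ℂ, ‖μ * x1 - (vec d).1‖ + ‖μ * x2 - (vec d).2‖ < μ.re := by
  have n1 : ∀ z : ℂ, ‖-I * z‖ = ‖z‖ := by intro z; rw [norm_mul, norm_neg, norm_I, one_mul]
  have r1 : ∀ z : ℂ, (-I * z).re = z.im := by intro z; simp
  have r2 : ∀ z : ℂ, (-I * z).im = -z.re := by intro z; simp
  rcases le_total 0 x1.re with hr | hr
  · rcases le_total 0 x1.im with hi | hi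
    · exact face_quadrant hl hch h1 hr hi h2
    · refine unrot hD (unrot hD (unrot hD ?_))
      refine face_quadrant hl hch (by simp only [n1]; exact h1) ?_ ?_ (by simp only [n1]; exact h2)
      · simp only [r1, r2]; linarith
      · simp only [r1, r2]; linarith
  · rcases le_total 0 x1.im with hi | hi
    · refine unrot hD ?_
      refine face_quadrant hl hch (by simp only [n1]; exact h1) ?_ ?_ (by simp only [n1]; exact h2)
      · simp only [r1]; linarith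
      · simp only [r2]; linarith
    · refine unrot hD (unrot hD ?_)
      refine face_quadrant hl hch (by simp only [n1]; exact h1) ?_ ?_ (by simp only [n1]; exact h2)
      · simp only [r1, r2]; linarith
      · simp only [r1, r2]; linarith

/-- **the selection lemma** -/
theorem select {x1 x2 : ℂ} (h1 : ‖x1‖ ≤ 1) (h2 : ‖x2‖ ≤ 1) :
    ∃ d ∈ dirs, ∃ μ : ℂ, ‖μ * x1 - (vec d).1‖ + ‖μ * x2 - (vec d).2‖ < μ.re := by
  have swap : (∃ d ∈ dirs', ∃ μ : ℂ, ‖μ * x2 - (vec d).1‖ + ‖μ * x1 - (vec d).2‖ < μ.re) →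
      ∃ d ∈ dirs, ∃ μ : ℂ, ‖μ * x1 - (vec d).1‖ + ‖μ * x2 - (vec d).2‖ < μ.re := by
    rintro ⟨d, hd, μ, h⟩
    obtain ⟨e, he, rfl⟩ := List.mem_map.1 hd
    refine ⟨e, he, μ, ?_⟩
    simp only [vec] at h ⊢
    linarith
  -- scaling
  have scale : ∀ t : ℝ, 0 < t → t ≤ 1 →
      (∃ d ∈ dirs, ∃ μ : ℂ, ‖μ * (x1 / t) - (vec d).1‖ + ‖μ * (x2 / t) - (vec d).2‖ < μ.re) →
      ∃ d ∈ dirs, ∃ μ : ℂ, ‖μ * x1 - (vec d).1‖ + ‖μ * x2 - (vec d).2‖ < μ.re := by
    rintro t ht ht1 ⟨d, hd, μ, h⟩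
    have ht' : (t : ℂ) ≠ 0 := by exact_mod_cast ht.ne'
    refine ⟨d, hd, μ / t, ?_⟩
    have e : ∀ x : ℂ, μ / t * x = μ * (x / t) := by intro x; ring
    rw [e, e]
    have hre : (μ / t).re = μ.re / t := by
      rw [Complex.div_ofReal_re]
    rw [hre]
    have hμ : 0 ≤ μ.re := le_trans (by positivity) h.le
    refine lt_of_lt_of_le h ?_
    rw [le_div_iff₀ ht]
    nlinarith
  rcases le_total ‖x2‖ ‖x1‖ with h12 | h12
  · rcases (norm_nonneg x1).eq_or_lt with h0 | h0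
    · have z1 : x1 = 0 := norm_eq_zero.1 h0.symm
      have z2 : x2 = 0 := norm_eq_zero.1 (le_antisymm (by rw [h0]; exact h12) (norm_nonneg _))
      subst z1 z2
      refine ⟨(64, 0, 43, 0), by decide, ⟨200, 0⟩, ?_⟩
      have b1 : ‖(⟨200, 0⟩ : ℂ) * 0 - (vec (64, 0, 43, 0)).1‖ ≤ 64 :=
        norm_le_of_sq (by norm_num) (by simp [vec])
      have b2 : ‖(⟨200, 0⟩ : ℂ) * 0 - (vec (64, 0, 43, 0)).2‖ ≤ 43 :=
        norm_le_of_sq (by norm_num) (by simp [vec])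
      show _ < (200 : ℝ)
      linarith
    · refine scale ‖x1‖ h0 h1 (face arcs0_ok chain0_ok rot_mem ?_ ?_)
      · rw [norm_div, Complex.norm_real, norm_norm, div_self h0.ne']
      · rw [norm_div, Complex.norm_real, norm_norm]
        exact (div_le_one h0).2 h12
  · rcases (norm_nonneg x2).eq_or_lt with h0 | h0
    · have z2 : x2 = 0 := norm_eq_zero.1 h0.symm
      have z1 : x1 = 0 := norm_eq_zero.1 (le_antisymm (by rw [h0]; exact h12) (norm_nonneg _))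
      subst z1 z2
      refine ⟨(64, 0, 43, 0), by decide, ⟨200, 0⟩, ?_⟩
      have b1 : ‖(⟨200, 0⟩ : ℂ) * 0 - (vec (64, 0, 43, 0)).1‖ ≤ 64 :=
        norm_le_of_sq (by norm_num) (by simp [vec])
      have b2 : ‖(⟨200, 0⟩ : ℂ) * 0 - (vec (64, 0, 43, 0)).2‖ ≤ 43 :=
        norm_le_of_sq (by norm_num) (by simp [vec])
      show _ < (200 : ℝ)
      linarith
    · have hh : ∃ d ∈ dirs', ∃ μ : ℂ, ‖μ * (x2 / ‖x2‖) - (vec d).1‖ +
          ‖μ * (x1 / ‖x2‖) - (vec d).2‖ < μ.re := by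
        refine face arcs1_ok chain1_ok rot_mem' ?_ ?_
        · rw [norm_div, Complex.norm_real, norm_norm, div_self h0.ne']
        · rw [norm_div, Complex.norm_real, norm_norm]
          exact (div_le_one h0).2 h12
      refine scale ‖x2‖ h0 h2 ?_
      obtain ⟨d, hd, μ, h⟩ := hh
      obtain ⟨e, he, rfl⟩ := List.mem_map.1 hd
      refine ⟨e, he, μ, ?_⟩
      simp only [vec] at h ⊢
      linarith

end Pool.Agent.Zk84.HC
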